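import Pool.Agent.H95.Asy1

set_option autoImplicit false
open scoped BoundedContinuousFunction
open Pool.Agent.H95.AsyDefs

universe u

theorem Pool.Agent.Results.MP_f651fd_an.NoInj.result
    (H : Type u) [NormedAddCommGroup H] [InnerProductSpace ℂ H] [CompleteSpace H]
    (hH : ¬ FiniteDimensional ℂ H) (L : (ℕ →ᵇ ℂ) →ₗ[ℂ] ℂ) (hL : IsBanachLimit L)
    (T A : H →L[ℂ] H) (hT : PowerBounded T) (hA : IsAsympLimit L T A) (hp : A.IsPositive)
    (hc : IsCompactOperator A) : ¬ Function.Injective A :=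
  Pool.Agent.H95.Asy.no_inj hH hL hT hA hp hc
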